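import Pool.Agent.K1H73.SQB.Stm2

/-! Piece EXM2 of the project SQB (after K1H36/SQB/Exm.lean). -/

set_option autoImplicit false

namespace Pool.Agent.K1H80.SQB

open Finset Pool.Agent.Y862.SQ Pool.Agent.Y681.SQ Pool.Agent.K1H73.SQB

lemma qm_mod {k : ℕ} (q : ℕ) (a s : Fin k → ℕ) (G : Fin k → Finset ℕ) (p n : ℕ) :
    Qc q a s G p (n % p) ↔ Qc q a s G p n := by
  unfold Qc
  apply exists_congr
  intro i
  apply exists_congr
  intro h
  apply and_congr_right
  intro _
  have h2 : ((n % p) + s i) ^ 2 + h ≡ (n + s i) ^ 2 + h [MOD p] :=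
    Nat.ModEq.add_right _ ((Nat.ModEq.add_right _ (Nat.mod_modEq n p)).pow 2)
  have h3 : (((n % p) + s i) ^ 2 + h) % p = ((n + s i) ^ 2 + h) % p := h2
  rw [h2.dvd_iff (dvd_refl p), h3]

open Classical in
lemma exactG {k : ℕ} (q : ℕ) (a s : Fin k → ℕ) (G : Fin k → Finset ℕ) (w : ℕ) :
    (((range (Mw w)).filter (fun n => ∀ p ∈ pr w, ¬ Qc q a s G p n)).card : ℝ) =
      Mw w * DC q a s G w := by
  have h1 := crt (fun p n => ¬ Qc q a s G p n) (pr w) (fun p hp => (mem_pr.1 hp).2) (by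
    intro p _ n
    exact not_congr (qm_mod q a s G p n))
  have h2 : (((range (Mw w)).filter (fun n => ∀ p ∈ pr w, ¬ Qc q a s G p n)).card : ℝ) =
      ∏ p ∈ pr w, (((range p).filter (fun n => ¬ Qc q a s G p n)).card : ℝ) := by
    unfold Mw
    have h3 : ((((range (∏ p ∈ pr w, p)).filter (fun n => ∀ p ∈ pr w, ¬ Qc q a s G p n)).card : ℕ) : ℝ)
      = ((∏ p ∈ pr w, ((range p).filter (fun n => ¬ Qc q a s G p n)).card : ℕ) : ℝ) := by
      rw [← h1]
    rw [h3, Nat.cast_prod]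
  rw [h2]
  unfold Mw DC
  rw [Nat.cast_prod, ← Finset.prod_mul_distrib]
  apply Finset.prod_congr rfl
  intro p hp
  have hp0 : (p : ℝ) ≠ 0 := by exact_mod_cast (mem_pr.1 hp).2.ne_zero
  rw [card_compl (fun n => Qc q a s G p n) p]
  unfold rC
  field_simp

open Classical in
lemma filter_bx {k : ℕ} (q w n : ℕ) (a s κ S U : Fin k → ℕ) :
    (bx κ S U).filter (fun G => ∀ p ∈ pr w, ¬ Qc q a s G p n) =
      Fintype.piFinset (fun i => powersetCard (κ i)
        ((Ioc (S i) (U i)).filter (fun h => ok q (a i) w ((n + s i) ^ 2 + h)))) := by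
  ext G
  unfold bx
  rw [mem_filter, Fintype.mem_piFinset, Fintype.mem_piFinset]
  constructor
  · rintro ⟨h1, h2⟩ i
    have h3 := h1 i
    rw [mem_powersetCard] at h3 ⊢
    refine ⟨fun h hh => mem_filter.2 ⟨h3.1 hh, fun p hp => ?_⟩, h3.2⟩
    by_contra hcon
    exact h2 p hp ⟨i, h, hh, hcon⟩
  · intro h1
    refine ⟨fun i => ?_, ?_⟩
    · have h3 := h1 i
      rw [mem_powersetCard] at h3 ⊢
      exact ⟨h3.1.trans (filter_subset _ _), h3.2⟩
    · rintro p hp ⟨i, h, hh, hcon⟩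
      have h3 := h1 i
      rw [mem_powersetCard] at h3
      exact hcon ((mem_filter.1 (h3.1 hh)).2 p hp)

theorem t_EXM2 : S_EXM2 := by
  classical
  intro k q w a s κ S U
  rw [Finset.mul_sum]
  have h1 : ∀ G ∈ bx κ S U, (Mw w : ℝ) * DC q a s G w =
      ∑ n ∈ range (Mw w), if (∀ p ∈ pr w, ¬ Qc q a s G p n) then (1 : ℝ) else 0 := by
    intro G _
    rw [← exactG q a s G w]
    rw [Finset.sum_ite, Finset.sum_const_zero, add_zero, Finset.sum_const, nsmul_eq_mul, mul_one]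
  rw [Finset.sum_congr rfl h1, Finset.sum_comm]
  apply Finset.sum_congr rfl
  intro n _
  rw [Finset.sum_ite, Finset.sum_const_zero, add_zero, Finset.sum_const, nsmul_eq_mul, mul_one,
    filter_bx, Fintype.card_piFinset, Nat.cast_prod]
  apply Finset.prod_congr rfl
  intro i _
  rw [card_powersetCard]
  unfold Nb
  rfl

end Pool.Agent.K1H80.SQB
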